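import Pool.Agent.H50.ODG.Targets
import Pool.Agent.H12.OD.KWY

/-!
# Board odg_modules, row K12 (helper72)
-/

set_option autoImplicit false

namespace Pool.Agent.H72.ODG

open Pool.Agent.H57.CP Pool.Agent.H39.TO Pool.Agent.H39.OD Pool.Agent.H50.ODG Pool.Agent.H12.OD

theorem pf_K12 (hRFX : T_RFX) (_hSYG : T_SYG) : T_K12 := by
  intro K x x' f a b c q q' m n0 n1 n2 hK hD h0 h1 h2 ha hb hc
  have Ha := Agr_rf hRFX hD.sa hD.aa h0 ha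
  have Hb := Agr_rf hRFX hD.sb hD.bb h1 hb
  have Hc := Agr_rf hRFX hD.sc hD.cc h2 hc
  have H1 : ∀ s ∈ ({a, b, c} : Set (Equiv.Perm H3)),
      ∃ t ∈ ({rf n0, rf n1, rf n2} : Set (Equiv.Perm H3)), Agr K.V s t := by
    rintro s (rfl | rfl | rfl)
    · exact ⟨_, Or.inl rfl, Ha⟩
    · exact ⟨_, Or.inr (Or.inl rfl), Hb⟩
    · exact ⟨_, Or.inr (Or.inr rfl), Hc⟩
  have H2 : ∀ s ∈ ({rf n0, rf n1, rf n2} : Set (Equiv.Perm H3)),
      ∃ t ∈ ({a, b, c} : Set (Equiv.Perm H3)), Agr K.V s t := by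
    rintro s (rfl | rfl | rfl)
    · exact ⟨_, Or.inl rfl, Ha.symm⟩
    · exact ⟨_, Or.inr (Or.inl rfl), Hb.symm⟩
    · exact ⟨_, Or.inr (Or.inr rfl), Hc.symm⟩
  have hx : x ∈ K.V := by
    rw [hD.eV]
    exact ⟨1, Subgroup.one_mem _, Or.inl rfl⟩
  have hx' : x' ∈ K.V := by
    rw [hD.eV]
    exact ⟨1, Subgroup.one_mem _, Or.inr rfl⟩
  have he : ({x, x'} : Set H3) ⊆ K.V := by
    rintro y (rfl | rfl)
    · exact hx
    · exact hx'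
  have hV : K.V = {z | ∃ g ∈ G3 (rf n0) (rf n1) (rf n2), z = g x ∨ z = g x'} := by
    conv_lhs => rw [hD.eV]
    ext z
    constructor
    · rintro ⟨g, hg, h⟩
      obtain ⟨g2, hg2, h3⟩ := Agr_closure H1 g hg
      rw [(h3 x hx).1, (h3 x' hx').1] at h
      exact ⟨g2, hg2, h⟩
    · rintro ⟨g, hg, h⟩
      obtain ⟨g2, hg2, h3⟩ := Agr_closure H2 g hg
      rw [(h3 x hx).1, (h3 x' hx').1] at h
      exact ⟨g2, hg2, h⟩
  have hE : K.E = {e | ∃ g ∈ G3 (rf n0) (rf n1) (rf n2), e = g '' {x, x'}} := by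
    rw [hD.eE]
    ext z
    constructor
    · rintro ⟨g, hg, rfl⟩
      obtain ⟨g2, hg2, h⟩ := Agr_closure H1 g hg
      exact ⟨g2, hg2, h.image he⟩
    · rintro ⟨g, hg, rfl⟩
      obtain ⟨g2, hg2, h⟩ := Agr_closure H2 g hg
      exact ⟨g2, hg2, h.image he⟩
  have ef1 : f = fc (rf n0) (rf n1) {x, x'} := by
    rw [hD.ef, fc_eq Ha Hb he]
  have hf : ∀ e ∈ f, e ⊆ K.V := by
    rw [hD.ef]
    exact (fc_sub Ha Hb he).1
  have hF : K.F = {h | ∃ g ∈ G3 (rf n0) (rf n1) (rf n2),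
      h = (Set.image g) '' fc (rf n0) (rf n1) {x, x'}} := by
    rw [hD.eF, ← ef1]
    ext z
    constructor
    · rintro ⟨g, hg, h⟩
      obtain ⟨g2, hg2, h3⟩ := Agr_closure H1 g hg
      rw [h3.image2 hf] at h
      exact ⟨g2, hg2, h⟩
    · rintro ⟨g, hg, h⟩
      obtain ⟨g2, hg2, h3⟩ := Agr_closure H2 g hg
      rw [h3.image2 hf] at h
      exact ⟨g2, hg2, h⟩
  obtain ⟨V, E, F⟩ := K
  show (⟨V, E, F⟩ : Geo) = ⟨_, _, _⟩
  exact (Geo.mk.injEq _ _ _ _ _ _).mpr ⟨hV, hE, hF⟩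

end Pool.Agent.H72.ODG
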