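import Pool.Agent.H50.ODG.Targets

/-!
# Board odg_modules, row R12 (helper72)
-/

set_option autoImplicit false

namespace Pool.Agent.H72.ODG

open Pool.Agent.H57.CP Pool.Agent.H39.TO Pool.Agent.H39.OD Pool.Agent.H50.ODG

lemma closure_inv {V : Set H3} {a c : Equiv.Perm H3} (ha : ∀ y, a y ∈ V ↔ y ∈ V)
    (hc : ∀ y, c y ∈ V ↔ y ∈ V) : ∀ g ∈ Subgroup.closure {a, c}, ∀ y, g y ∈ V ↔ y ∈ V := by
  intro g hg
  induction hg using Subgroup.closure_induction with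
  | mem s hs =>
    rcases hs with rfl | rfl
    · exact ha
    · exact hc
  | one => intro y; exact Iff.rfl
  | mul x z _ _ ihx ihz => intro y; exact (ihx (z y)).trans (ihz y)
  | inv x _ ihx =>
    intro y
    have h1 := ihx (x⁻¹ y)
    have h2 : x (x⁻¹ y) = y := x.apply_symm_apply y
    rw [h2] at h1
    exact h1.symm

lemma refl_lor {H : V4 →ₗ[ℝ] V4} (hH : Lor H) (n w : V4) :
    Pool.Agent.H57.CP.refl (H n) (H w) = H (Pool.Agent.H57.CP.refl n w) := by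
  have e : ∀ n w : V4, Pool.Agent.H57.CP.refl n w = w + (2 * mk n w) • n := fun _ _ => rfl
  rw [e, e, map_add, map_smul, hH.1]

lemma one_side (hCJR : T_CJR) (hEXT : T_EXT) {K : Geo} {a c : Equiv.Perm H3} {q : ℕ} {n2 : V4}
    (sa : Sy K a) (sc : Sy K c) (aa : ∀ z ∈ K.V, a (a z) = z) (cc : ∀ z ∈ K.V, c (c z) = z)
    (o1 : ∀ z ∈ K.V, ((a * c) ^ q) z = z) (hq : Odd q) (h2 : mk n2 n2 = -1)
    (hc : ∀ z ∈ K.V, Pool.Agent.H57.CP.refl n2 z.1 = (c z).1) :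
    ∃ n0 : V4, mk n0 n0 = -1 ∧ ∀ z ∈ K.V, Pool.Agent.H57.CP.refl n0 z.1 = (a z).1 := by
  obtain ⟨h, hi, hcl, hh⟩ := hCJR K.V a c q sa.iso sc.iso sa.v sc.v aa cc o1 hq
  obtain ⟨H, hL, hE⟩ := hEXT h hi
  refine ⟨H n2, by rw [hL.1, h2], ?_⟩
  intro z hz
  have hw : h⁻¹ z ∈ K.V :=
    (closure_inv sa.v sc.v h⁻¹ (Subgroup.inv_mem _ hcl) z).2 hz
  have e1 : z.1 = H (h⁻¹ z).1 := by
    have h2 : h (h⁻¹ z) = z := h.apply_symm_apply z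
    rw [hE, h2]
  rw [e1, refl_lor hL, hc _ hw, hE, ← hh z hz]

theorem pf_R12 (hCRF : T_CRF) (hCJR : T_CJR) (hEXT : T_EXT) (_hSPN : T_SPN) (_hMKI : T_MKI) :
    T_R12 := by
  intro K x x' f a b c q q' m hK hD hq hq' h3 h3'
  obtain ⟨n2, h2, hc⟩ := hCRF K x x' f a b c q q' m hK hD hq hq' h3 h3'
  obtain ⟨n0, h0, ha⟩ := one_side hCJR hEXT hD.sa hD.sc hD.aa hD.cc hD.o1' hq h2 hc
  obtain ⟨n1, h1, hb⟩ := one_side hCJR hEXT hD.sb hD.sc hD.bb hD.cc hD.o2' hq' h2 hc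
  exact ⟨n0, n1, n2, h0, h1, h2, ha, hb, hc⟩

end Pool.Agent.H72.ODG
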